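import Pool.Agent.H1.KrD

namespace Pool.Agent.Results.MP_f4ec25_an.Yes

open MeasureTheory H1.Kr

/-- Every measurable `f ∈ R_A` has a measurable extension in `R_∞` of the same norm. -/
theorem result (A : ℝ) (_hA : 0 < A) (f : ℝ → ℂ) (hf : AEMeasurable f (volume.restrict (Set.Ioo (-A) A)))
    (h : InR (Set.Ioo (-A) A) f) : ∃ g : ℝ → ℂ, (∀ x ∈ Set.Ioo (-A) A, g x = f x) ∧
      AEMeasurable g volume ∧ InR Set.univ g ∧ nrm Set.univ g = nrm (Set.Ioo (-A) A) f :=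
  extend isOpen_Ioo hf h

end Pool.Agent.Results.MP_f4ec25_an.Yes
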